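import Pool.Agent.TH823.PS.Fin3

set_option autoImplicit false

/-!
# Sums over positive and negative integers
-/

open Finset Polynomial

namespace Pool.Agent.TH823.PS

open Pool.Agent.H373R2.T7 (liR muC liR_norm exI energy)

/-- the even extension -/
noncomputable def evI (f : ℕ → ℂ) (m : ℤ) : ℂ := exI f m + exI f (-m)

/-- a shifted partial sum -/
lemma shift_sum (F : ℤ → ℂ) {X N : ℕ} (hX : X ≤ N) :
    ∑ v ∈ Icc (-(X : ℤ)) X, F v =
      ∑ j ∈ Icc 1 (N + 1 + X), F ((j : ℤ) - N - 1) - ∑ j ∈ Icc 1 (N - X), F ((j : ℤ) - N - 1) := by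
  have h1 : Icc 1 (N + 1 + X) = Icc 1 (N - X) ∪ Icc (N - X + 1) (N + 1 + X) := by
    ext j; simp only [mem_union, mem_Icc]; omega
  have h2 : Disjoint (Icc 1 (N - X)) (Icc (N - X + 1) (N + 1 + X)) := by
    rw [disjoint_left]
    intro j hj hj'
    rw [mem_Icc] at hj hj'
    omega
  rw [h1, sum_union h2, add_sub_cancel_left]
  refine sum_nbij' (fun v => (v + N + 1).toNat) (fun j => (j : ℤ) - N - 1) ?_ ?_ ?_ ?_ ?_
  · intro v hv
    rw [mem_Icc] at hv ⊢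
    omega
  · intro j hj
    rw [mem_Icc] at hj ⊢
    omega
  · intro v hv
    rw [mem_Icc] at hv
    rw [Int.toNat_of_nonneg (by omega)]
    ring
  · intro j hj
    rw [mem_Icc] at hj
    omega
  · intro v hv
    rw [mem_Icc] at hv
    congr 1
    rw [Int.toNat_of_nonneg (by omega)]
    ring

/-- one linear coefficient and one sign -/
lemma one_sided {f : ℕ → ℂ} {A : ℕ} {P : ℤ[X]} {ε δ : ℝ} {N : ℕ} (hN : 1 ≤ N)
    (h : PolyG f (3 * A) 1 P ε δ N) {x : ℕ} (hx1 : x ^ P.natDegree ≤ A * N)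
    (hx2 : (N : ℝ) ^ (1 - δ) ≤ (x : ℝ) ^ P.natDegree) {c : ℤ} (hc : |c| ≤ A * N) {a : ℕ} (ha : 1 ≤ a)
    (haA : a ≤ A) (w : ℤ → ℂ) (hw : ∀ n, ‖w n‖ ≤ 1) (bad : ℕ → Prop) [DecidablePred bad]
    (hbad : ∀ m, bad m → ∃ X ≤ N, 2 * (ε * N) < ‖∑ v ∈ Icc (-(X : ℤ)) X, w v *
      exI f (a * v + (c + P.eval (m : ℤ)))‖) :
    (((Icc 1 x).filter bad).card : ℝ) ≤ x * (N : ℝ) ^ (-δ) := by
  classical
  have h1 := h x (hx1.trans (Nat.mul_le_mul_right _ (by omega))) hx2 (c - a * (N + 1)) (by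
      refine (abs_sub _ _).trans ?_
      have h2 : |(a : ℤ) * (N + 1)| = a * (N + 1) := abs_of_nonneg (by positivity)
      rw [h2]
      have h3 : (a : ℤ) * (N + 1) ≤ A * (2 * N) := by
        have h4 : (a : ℤ) ≤ A := by exact_mod_cast haA
        have h5 : (N : ℤ) + 1 ≤ 2 * N := by have : (1 : ℤ) ≤ N := by exact_mod_cast hN
                                            linarith
        exact mul_le_mul h4 h5 (by positivity) (by positivity)
      push_cast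
      linarith) (fun _ => a) (fun _ j => w ((j : ℤ) - N - 1)) (fun _ => ha) (by
      intro _
      refine (sum_le_sum fun n _ => pow_le_one₀ (norm_nonneg _) (hw _)).trans ?_
      rw [sum_const, Nat.card_Icc, nsmul_eq_mul, mul_one, Nat.add_sub_cancel]
      exact_mod_cast Nat.div_le_self _ _)
  refine le_trans ?_ h1
  apply Nat.cast_le.2
  apply card_le_card
  intro m hm
  rw [mem_filter] at hm ⊢
  refine ⟨hm.1, fun hcon => ?_⟩
  obtain ⟨X, hX, h3⟩ := hbad m hm.2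
  rw [shift_sum (fun v => w v * exI f (a * v + (c + P.eval (m : ℤ)))) hX] at h3
  have h4 := hcon 0 (N + 1 + X) (by
    calc a * (N + 1 + X) ≤ A * (3 * N) := Nat.mul_le_mul haA (by omega)
      _ = 3 * A * N := by ring)
  have h5 := hcon 0 (N - X) (by
    calc a * (N - X) ≤ A * (3 * N) := Nat.mul_le_mul haA (by omega)
      _ = 3 * A * N := by ring)
  have e1 : ∀ j : ℕ, exI f (a * ((j : ℤ) - N - 1) + (c + P.eval (m : ℤ))) =
      exI f (a * j + (c - a * (N + 1) + P.eval (m : ℤ))) := by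
    intro j; congr 1; ring
  simp only [e1] at h3
  have h6 := norm_sub_le (∑ j ∈ Icc 1 (N + 1 + X), w ((j : ℤ) - N - 1) *
    exI f (a * j + (c - a * (N + 1) + P.eval (m : ℤ)))) (∑ j ∈ Icc 1 (N - X), w ((j : ℤ) - N - 1) *
    exI f (a * j + (c - a * (N + 1) + P.eval (m : ℤ))))
  linarith

/-- the sums over positive and negative integers at one scale -/
lemma two_sided_at {f : ℕ → ℂ} {A : ℕ} {P : ℤ[X]} {ε δ : ℝ} {N : ℕ} (hN : 1 ≤ N)
    (h : PolyG f (3 * A) 1 P (ε / 4) δ N) (h' : PolyG f (3 * A) 1 (-P) (ε / 4) δ N) {x : ℕ}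
    (hx1 : x ^ P.natDegree ≤ A * N)
    (hx2 : (N : ℝ) ^ (1 - δ) ≤ (x : ℝ) ^ P.natDegree) {c : ℤ} (hc : |c| ≤ A * N) {a : ℕ} (ha : 1 ≤ a)
    (haA : a ≤ A) (w : ℤ → ℂ) (hw : ∀ n, ‖w n‖ ≤ 1) (bad : ℕ → Prop) [DecidablePred bad]
    (hbad : ∀ m, bad m → ∃ X ≤ N, ε * N < ‖∑ v ∈ Icc (-(X : ℤ)) X, w v *
      evI f (a * v + (c + P.eval (m : ℤ)))‖) :
    (((Icc 1 x).filter bad).card : ℝ) ≤ 2 * (x * (N : ℝ) ^ (-δ)) := by
  classical
  have h1 := one_sided hN h hx1 hx2 hc ha haA w hw (fun m => ∃ X ≤ N, 2 * (ε / 4 * N) <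
    ‖∑ v ∈ Icc (-(X : ℤ)) X, w v * exI f (a * v + (c + P.eval (m : ℤ)))‖) (fun m hm => hm)
  have h2 := one_sided hN h' (x := x) (by rw [natDegree_neg]; exact hx1) (by rw [natDegree_neg]; exact hx2)
    (c := -c) (by rw [abs_neg]; exact hc) ha haA (fun v => w (-v)) (fun n => hw _) (fun m => ∃ X ≤ N, 2 * (ε / 4 * N) <
    ‖∑ v ∈ Icc (-(X : ℤ)) X, w (-v) * exI f (a * v + (-c + (-P).eval (m : ℤ)))‖) (fun m hm => hm)
  have h3 : (Icc 1 x).filter bad ⊆ (Icc 1 x).filter (fun m => ∃ X ≤ N, 2 * (ε / 4 * N) <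
      ‖∑ v ∈ Icc (-(X : ℤ)) X, w v * exI f (a * v + (c + P.eval (m : ℤ)))‖) ∪
      (Icc 1 x).filter (fun m => ∃ X ≤ N, 2 * (ε / 4 * N) <
      ‖∑ v ∈ Icc (-(X : ℤ)) X, w (-v) * exI f (a * v + (-c + (-P).eval (m : ℤ)))‖) := by
    intro m hm
    rw [mem_filter] at hm
    obtain ⟨X, hX, h4⟩ := hbad m hm.2
    rw [mem_union, mem_filter, mem_filter]
    by_contra hcon
    rw [not_or, not_and, not_and] at hcon
    have h5 := hcon.1 hm.1
    have h6 := hcon.2 hm.1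
    push Not at h5 h6
    have h7 := h5 X hX
    have h8 := h6 X hX
    have e1 : ∑ v ∈ Icc (-(X : ℤ)) X, w (-v) * exI f (a * v + (-c + (-P).eval (m : ℤ))) =
        ∑ v ∈ Icc (-(X : ℤ)) X, w v * exI f (-(a * v + (c + P.eval (m : ℤ)))) := by
      refine sum_nbij' (fun v => -v) (fun v => -v) ?_ ?_ ?_ ?_ ?_
      · intro v hv; rw [mem_Icc] at hv ⊢; omega
      · intro v hv; rw [mem_Icc] at hv ⊢; omega
      · intro v _; simp
      · intro v _; simp
      · intro v _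
        simp only [eval_neg]
        congr 2
        ring
    rw [e1] at h8
    have e2 : ∑ v ∈ Icc (-(X : ℤ)) X, w v * evI f (a * v + (c + P.eval (m : ℤ))) =
        ∑ v ∈ Icc (-(X : ℤ)) X, w v * exI f (a * v + (c + P.eval (m : ℤ))) +
        ∑ v ∈ Icc (-(X : ℤ)) X, w v * exI f (-(a * v + (c + P.eval (m : ℤ)))) := by
      rw [← sum_add_distrib]
      apply sum_congr rfl
      intro v _
      unfold evI
      ring
    rw [e2] at h4
    have h9 := norm_add_le (∑ v ∈ Icc (-(X : ℤ)) X, w v * exI f (a * v + (c + P.eval (m : ℤ))))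
      (∑ v ∈ Icc (-(X : ℤ)) X, w v * exI f (-(a * v + (c + P.eval (m : ℤ)))))
    linarith
  have h4 : (((Icc 1 x).filter bad).card : ℝ) ≤
      (((Icc 1 x).filter (fun m : ℕ => ∃ X ≤ N, 2 * (ε / 4 * N) <
      ‖∑ v ∈ Icc (-(X : ℤ)) X, w v * exI f (a * v + (c + P.eval (m : ℤ)))‖)).card : ℝ) +
      (((Icc 1 x).filter (fun m : ℕ => ∃ X ≤ N, 2 * (ε / 4 * N) <
      ‖∑ v ∈ Icc (-(X : ℤ)) X, w (-v) * exI f (a * v + (-c + (-P).eval (m : ℤ)))‖)).card : ℝ) := by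
    exact_mod_cast (card_le_card h3).trans (card_union_le _ _)
  linarith

end Pool.Agent.TH823.PS
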