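import Pool.Agent.TH893.CL.Main
import Pool.Agent.TH893.CL.Twist
import Pool.Agent.TH823.PS.Fin2

/-!
# Products of consecutive values: few exceptional lengths

Adapted from `Pool.Agent.TH893.CL` (helper893), with separate parameters for the accuracy and for the number of
the exceptions.
-/

set_option autoImplicit false

namespace Pool.Agent.TH823.PS.Len

open Finset
open Pool.Agent.TH893.CL

variable {l : ℕ → ℝ}

/-- `l` is uncorrelated with arbitrary functions for all but `T` forward shifts. -/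
def PlusT (l : ℕ → ℝ) (N : ℕ) (η T : ℝ) : Prop :=
  ∀ g : ℕ → ℝ, (∀ n, |g n| ≤ 1) → num (Icc 1 N) (fun k => ¬ ∀ Y X : ℕ, Y ≤ X → X ≤ 2 * N →
    |∑ n ∈ Ioc Y X, g n * l (n + k)| ≤ η * N) ≤ T

/-- `l` is uncorrelated with arbitrary functions for all but `T` backward shifts. -/
def MinusT (l : ℕ → ℝ) (N : ℕ) (η T : ℝ) : Prop :=
  ∀ g : ℕ → ℝ, (∀ n, |g n| ≤ 1) → num (Icc 1 N) (fun k => ¬ ∀ Y X : ℕ, Y ≤ X → X ≤ 2 * N →
    |∑ n ∈ Ioc Y X, l n * g (n + k)| ≤ η * N) ≤ T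

lemma num_subset {K I : Finset ℕ} (h : K ⊆ I) (E : ℕ → Prop) : num K E ≤ num I E := by
  classical
  unfold num
  apply Nat.cast_le.2
  exact card_le_card (filter_subset_filter _ h)

lemma plus_sum (hl : ∀ n, l n = 1 ∨ l n = -1) {N : ℕ} {η T : ℝ} (hη : 0 ≤ η) (hP : PlusT l N η T)
    {g : ℕ → ℝ} (hg : ∀ n, |g n| ≤ 1) {K : Finset ℕ} (hK : K ⊆ Icc 1 N) {Y X : ℕ} (hYX : Y ≤ X) (hX : X ≤ 2 * N) :
    ∑ k ∈ K, |∑ n ∈ Ioc Y X, g n * l (n + k)| ≤ K.card * (η * N) + 2 * N * T := by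
  have h1 : ∀ k ∈ K, |∑ n ∈ Ioc Y X, g n * l (n + k)| ≤ 2 * N := by
    intro k _
    refine (abs_sum_Ioc_le (fun n => ?_) hYX).trans ?_
    · rw [abs_mul, l_abs hl, mul_one]; exact hg n
    · have : (X:ℝ) ≤ 2 * N := by exact_mod_cast hX
      have : (0:ℝ) ≤ Y := by positivity
      linarith
  have h2 := sum_le_of_num (u := η * N) (by positivity) h1
  have h3 := hP g hg
  have h4 : num K (fun k => ¬ |∑ n ∈ Ioc Y X, g n * l (n + k)| ≤ η * N) ≤ T := by
    refine (num_subset hK _).trans ((num_mono fun k _ h => ?_).trans h3)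
    intro h5
    exact h (h5 Y X hYX hX)
  have hN : (0:ℝ) ≤ 2 * N := by positivity
  have h5 := mul_le_mul_of_nonneg_left h4 hN
  linarith

lemma minus_sum (hl : ∀ n, l n = 1 ∨ l n = -1) {N : ℕ} {η T : ℝ} (hη : 0 ≤ η) (hP : MinusT l N η T)
    {g : ℕ → ℝ} (hg : ∀ n, |g n| ≤ 1) {K : Finset ℕ} (hK : K ⊆ Icc 1 N) {Y X : ℕ} (hYX : Y ≤ X) (hX : X ≤ 2 * N) :
    ∑ k ∈ K, |∑ n ∈ Ioc Y X, l n * g (n + k)| ≤ K.card * (η * N) + 2 * N * T := by
  have h1 : ∀ k ∈ K, |∑ n ∈ Ioc Y X, l n * g (n + k)| ≤ 2 * N := by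
    intro k _
    refine (abs_sum_Ioc_le (fun n => ?_) hYX).trans ?_
    · rw [abs_mul, l_abs hl, one_mul]; exact hg _
    · have : (X:ℝ) ≤ 2 * N := by exact_mod_cast hX
      have : (0:ℝ) ≤ Y := by positivity
      linarith
  have h2 := sum_le_of_num (u := η * N) (by positivity) h1
  have h3 := hP g hg
  have h4 : num K (fun k => ¬ |∑ n ∈ Ioc Y X, l n * g (n + k)| ≤ η * N) ≤ T := by
    refine (num_subset hK _).trans ((num_mono fun k _ h => ?_).trans h3)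
    intro h5
    exact h (h5 Y X hYX hX)
  have hN : (0:ℝ) ≤ 2 * N := by positivity
  have h5 := mul_le_mul_of_nonneg_left h4 hN
  linarith

/-- mean square of the average of the shifts -/
lemma A_sq (hl : ∀ n, l n = 1 ∨ l n = -1) {N : ℕ} {η T : ℝ} (hη : 0 ≤ η) (hP : PlusT l N η T)
    {K : Finset ℕ} (hK : K.Nonempty) (hKH : K ⊆ Icc 1 N) {Y X : ℕ} (hYX : Y ≤ X) (hX : X ≤ 2 * N) :
    ∑ n ∈ Ioc Y X, (A l K n) ^ 2 ≤ η * N + 2 * N * T / K.card := by
  have hc : (0:ℝ) < K.card := by exact_mod_cast hK.card_pos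
  have h1 : ∀ n, (A l K n) ^ 2 = (∑ k' ∈ K, ∑ k ∈ K, l (n + k') * l (n + k)) / (K.card * K.card) := by
    intro n
    unfold A
    rw [div_pow, sq, sq, sum_mul_sum]
  rw [sum_congr rfl fun n _ => h1 n, ← sum_div]
  have h2 : ∑ n ∈ Ioc Y X, ∑ k' ∈ K, ∑ k ∈ K, l (n + k') * l (n + k) ≤
      K.card * (K.card * (η * N) + 2 * N * T) := by
    rw [sum_comm]
    have h3 : ∀ k' ∈ K, ∑ n ∈ Ioc Y X, ∑ k ∈ K, l (n + k') * l (n + k) ≤ K.card * (η * N) + 2 * N * T := by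
      intro k' _
      rw [sum_comm]
      have h4 := plus_sum hl hη hP (g := fun n => l (n + k')) (fun n => (l_abs hl _).le) hKH hYX hX
      refine le_trans ?_ h4
      exact sum_le_sum fun k _ => le_abs_self _
    refine (sum_le_sum h3).trans (le_of_eq ?_)
    rw [sum_const, nsmul_eq_mul]
  rw [div_le_iff₀ (by positivity)]
  refine h2.trans (le_of_eq ?_)
  field_simp

/-- the correlation of `l` with two neighbouring values of the average -/
lemma DD_le (hl : ∀ n, l n = 1 ∨ l n = -1) {N : ℕ} {η T : ℝ} (hη : 0 ≤ η) (hM : MinusT l N η T)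
    {K : Finset ℕ} (hK : K.Nonempty) (hKH : K ⊆ Icc 1 N) {τ : ℝ} (hτ : τ = 1 ∨ τ = -1)
    {Y X : ℕ} (hYX : Y ≤ X) (hX : X ≤ 2 * N) :
    |∑ n ∈ Ioc Y X, l n * (D l K τ n * D l K τ (n + 1))| ≤ 4 * η * N + 16 * N ^ 2 * T / (K.card : ℝ) ^ 2 := by
  classical
  have hc : (0:ℝ) < K.card := by exact_mod_cast hK.card_pos
  set Φ : ℕ → ℝ := fun n => (F l n + τ * F l (n + 1)) / 2 with hΦ
  have hΦb : ∀ n, |Φ n| ≤ 1 := Phi_abs hl hτ
  have hD : ∀ n, D l K τ n = 2 * (∑ k ∈ K, Φ (n + k)) / K.card := by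
    intro n
    unfold D
    rw [mul_sum]
    congr 1
    apply sum_congr rfl
    intro k _
    simp only [hΦ]; ring
  have h1 : ∀ n, l n * (D l K τ n * D l K τ (n + 1)) =
      (4 / (K.card : ℝ) ^ 2) * ∑ k ∈ K, ∑ k' ∈ K, l n * (Φ (n + k) * Φ (n + 1 + k')) := by
    intro n
    rw [hD, hD]
    have h2 : (∑ k ∈ K, ∑ k' ∈ K, l n * (Φ (n + k) * Φ (n + 1 + k'))) =
        l n * ((∑ k ∈ K, Φ (n + k)) * (∑ k' ∈ K, Φ (n + 1 + k'))) := by
      rw [sum_mul_sum, mul_sum]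
      apply sum_congr rfl
      intro k _
      rw [mul_sum]
    rw [h2]
    field_simp
    ring
  rw [sum_congr rfl fun n _ => h1 n, ← mul_sum, abs_mul, abs_of_pos (by positivity : (0:ℝ) < 4 / (K.card : ℝ) ^ 2)]
  have h3 : |∑ n ∈ Ioc Y X, ∑ k ∈ K, ∑ k' ∈ K, l n * (Φ (n + k) * Φ (n + 1 + k'))| ≤
      (K.card : ℝ) ^ 2 * (η * N) + 4 * N ^ 2 * T := by
    rw [sum_comm]
    refine (abs_sum_le_sum_abs _ _).trans ?_
    set U : ℕ → ℕ → ℝ := fun d k => |∑ n ∈ Ioc Y X, l n * (Φ (n + k) * Φ (n + k + 1 + d - N))| with hU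
    have h4 : ∀ k ∈ K, |∑ n ∈ Ioc Y X, ∑ k' ∈ K, l n * (Φ (n + k) * Φ (n + 1 + k'))| ≤
        ∑ d ∈ (range (2 * N)).filter (fun d => k + d - N ∈ K ∧ N ≤ k + d), U d k := by
      intro k hk
      have hk1 := mem_Icc.1 (hKH hk)
      rw [sum_comm]
      refine (abs_sum_le_sum_abs _ _).trans ?_
      have h5 : ∀ k' ∈ K, |∑ n ∈ Ioc Y X, l n * (Φ (n + k) * Φ (n + 1 + k'))| = U (k' + N - k) k := by
        intro k' hk'
        have hk2 := mem_Icc.1 (hKH hk')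
        simp only [hU]
        congr 1
        apply sum_congr rfl
        intro n _
        have h6 : n + k + 1 + (k' + N - k) - N = n + 1 + k' := by omega
        rw [h6]
      rw [sum_congr rfl h5]
      have hinj : Set.InjOn (fun k' => k' + N - k) (K : Set ℕ) := by
        intro x hx y hy hxy
        have hx2 := mem_Icc.1 (hKH (mem_coe.1 hx))
        have hy2 := mem_Icc.1 (hKH (mem_coe.1 hy))
        simp only at hxy
        omega
      have h7 := sum_image (f := fun d => U d k) hinj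
      rw [← h7]
      apply sum_le_sum_of_subset_of_nonneg
      · intro d hd
        obtain ⟨k', hk', rfl⟩ := mem_image.1 hd
        have hk2 := mem_Icc.1 (hKH hk')
        simp only [mem_range, mem_filter]
        have h8 : k + (k' + N - k) - N = k' := by omega
        rw [h8]
        exact ⟨by omega, hk', by omega⟩
      · intro _ _ _; exact abs_nonneg _
    refine (sum_le_sum h4).trans ?_
    have h41 : ∑ k ∈ K, ∑ d ∈ (range (2 * N)).filter (fun d => k + d - N ∈ K ∧ N ≤ k + d), U d k =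
        ∑ d ∈ range (2 * N), ∑ k ∈ K.filter (fun k => k + d - N ∈ K ∧ N ≤ k + d), U d k := by
      simp only [sum_filter]
      rw [sum_comm]
    rw [h41]
    have h8 : ∀ d ∈ range (2 * N), ∑ k ∈ K.filter (fun k => k + d - N ∈ K ∧ N ≤ k + d), U d k ≤
        ((K.filter (fun k => k + d - N ∈ K ∧ N ≤ k + d)).card : ℝ) * (η * N) + 2 * N * T := by
      intro d _
      exact minus_sum hl hη hM (g := fun m => Φ m * Φ (m + 1 + d - N)) (fun n => by
        rw [abs_mul]; exact mul_le_one₀ (hΦb _) (abs_nonneg _) (hΦb _))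
        ((filter_subset _ _).trans hKH) hYX hX
    refine (sum_le_sum h8).trans ?_
    rw [sum_add_distrib, sum_const, card_range, nsmul_eq_mul, ← sum_mul]
    have h9 : ∑ d ∈ range (2 * N), ((K.filter (fun k => k + d - N ∈ K ∧ N ≤ k + d)).card : ℝ) ≤ (K.card : ℝ) ^ 2 := by
      have h10 : ∑ d ∈ range (2 * N), (K.filter (fun k => k + d - N ∈ K ∧ N ≤ k + d)).card ≤ K.card * K.card := by
        rw [← card_product, ← card_sigma]
        apply card_le_card_of_injOn (fun q => (q.2, q.2 + q.1 - N))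
        · intro q hq
          rw [mem_coe, mem_sigma, mem_filter] at hq
          rw [mem_coe, mem_product]
          exact ⟨hq.2.1, hq.2.2.1⟩
        · rintro ⟨d, k⟩ hq ⟨d', k'⟩ hq' hqq
          rw [mem_coe, mem_sigma, mem_filter] at hq hq'
          simp only [Prod.mk.injEq] at hqq
          simp only at hq hq'
          obtain ⟨h11, h12⟩ := hqq
          subst h11
          have h13 : d = d' := by
            have := hq.2.2.2
            have := hq'.2.2.2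
            omega
          subst h13
          rfl
      rw [sq]
      exact_mod_cast h10
    have h10 : (∑ d ∈ range (2 * N), ((K.filter (fun k => k + d - N ∈ K ∧ N ≤ k + d)).card : ℝ)) * (η * N) ≤
        (K.card : ℝ) ^ 2 * (η * N) := mul_le_mul_of_nonneg_right h9 (by positivity)
    refine (add_le_add h10 le_rfl).trans (le_of_eq ?_)
    push_cast
    ring
  calc _ ≤ 4 / (K.card : ℝ) ^ 2 * ((K.card : ℝ) ^ 2 * (η * N) + 4 * N ^ 2 * T) :=
        mul_le_mul_of_nonneg_left h3 (by positivity)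
    _ = _ := by field_simp; ring

/-- Sum of the absolute values of the averages of the shifts. -/
lemma A_sum (hl : ∀ n, l n = 1 ∨ l n = -1) {N : ℕ} {η T : ℝ} (hη : 0 ≤ η) (hP : PlusT l N η T)
    {K : Finset ℕ} (hK : K.Nonempty) (hKH : K ⊆ Icc 1 N) {Y X : ℕ} (hYX : Y ≤ X) (hX : X ≤ 2 * N)
    {κ : ℝ} (hκ : 0 < κ) :
    ∑ n ∈ Ioc Y X, |A l K n| ≤ (η * N + 2 * N * T / K.card) / (2 * κ) + κ / 2 * ((X:ℝ) - Y) := by
  have h1 : ∀ n ∈ Ioc Y X, |A l K n| ≤ (A l K n) ^ 2 / (2 * κ) + κ / 2 := by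
    intro n _
    rw [← sq_abs]
    set t := |A l K n|
    have h2 : t ^ 2 / (2 * κ) + κ / 2 - t = (t - κ) ^ 2 / (2 * κ) := by field_simp; ring
    have h3 : 0 ≤ (t - κ) ^ 2 / (2 * κ) := by positivity
    linarith
  refine (sum_le_sum h1).trans ?_
  rw [sum_add_distrib, ← sum_div, sum_const, Nat.card_Ioc, nsmul_eq_mul, Nat.cast_sub hYX]
  have h4 := A_sq hl hη hP hK hKH hYX hX
  have h5 : (∑ n ∈ Ioc Y X, (A l K n) ^ 2) / (2 * κ) ≤ (η * N + 2 * N * T / K.card) / (2 * κ) :=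
    div_le_div_of_nonneg_right h4 (by positivity)
  linarith

/-- The bound for the combination of the averages over `K`. -/
lemma FD_le (hl : ∀ n, l n = 1 ∨ l n = -1) {N : ℕ} (hN : 1 ≤ N) {η ζ θ κ : ℝ} (hη : 0 ≤ η) (hζ : 0 ≤ ζ)
    (hθ : 0 < θ) (hκ : 0 < κ)
    (hP : PlusT l N η (ζ * N)) (hM : MinusT l N η (ζ * N)) {K : Finset ℕ} (hKH : K ⊆ Icc 1 N)
    (hKc : θ * N ≤ K.card) {τ : ℝ} (hτ : τ = 1 ∨ τ = -1) {Y X : ℕ} (hYX : Y ≤ X) (hX : X ≤ N) :
    2 * |∑ n ∈ Ioc Y X, F l n * D l K τ n| ≤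
      ((X:ℝ) - Y) + (4 * η + 16 * ζ / θ ^ 2 + 3 * η / κ + 6 * ζ / (θ * κ) + 3 * κ) * N + 4 := by
  have hXN : (X:ℝ) ≤ N := by exact_mod_cast hX
  have hY0 : (0:ℝ) ≤ Y := by positivity
  have hN0 : (0:ℝ) < N := by exact_mod_cast hN
  have hc : (0:ℝ) < K.card := lt_of_lt_of_le (by positivity) hKc
  have hK : K.Nonempty := card_pos.1 (by exact_mod_cast hc)
  have h1 := main_ineq hl hK hτ hYX
  have h2 := DD_le hl hη hM hK hKH hτ hYX (by omega : X ≤ 2 * N)
  have h3 := A_sum hl hη hP hK hKH hYX (by omega : X ≤ 2 * N) hκ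
  have h4 : ∑ n ∈ Ioc Y X, |A l K (n + 1)| ≤ (η * N + 2 * N * (ζ * N) / K.card) / (2 * κ) + κ / 2 * ((X:ℝ) - Y) := by
    have h5 := A_sum hl hη hP hK hKH (by omega : Y + 1 ≤ X + 1) (by omega : X + 1 ≤ 2 * N) hκ
    have h6 : ∑ n ∈ Ioc (Y + 1) (X + 1), |A l K n| = ∑ n ∈ Ioc Y X, |A l K (n + 1)| := by
      rw [← Finset.image_add_right_Ioc, sum_image (fun x _ y _ h => by simpa using h)]
    rw [← h6]
    refine h5.trans (le_of_eq ?_)
    push_cast; ring
  have h7 : 16 * (N : ℝ) ^ 2 * (ζ * N) / (K.card : ℝ) ^ 2 ≤ 16 * ζ / θ ^ 2 * N := by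
    rw [div_le_iff₀ (by positivity)]
    have h8 : (θ * N) ^ 2 ≤ (K.card : ℝ) ^ 2 := pow_le_pow_left₀ (by positivity) hKc 2
    calc 16 * (N : ℝ) ^ 2 * (ζ * N) = 16 * ζ / θ ^ 2 * N * (θ * N) ^ 2 := by field_simp
      _ ≤ _ := mul_le_mul_of_nonneg_left h8 (by positivity)
  have h9 : 2 * (N : ℝ) * (ζ * N) / K.card ≤ 2 * ζ / θ * N := by
    rw [div_le_iff₀ (by positivity)]
    calc 2 * (N : ℝ) * (ζ * N) = 2 * ζ / θ * N * (θ * N) := by field_simp
      _ ≤ _ := mul_le_mul_of_nonneg_left hKc (by positivity)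
  have h9' : (η * N + 2 * (N : ℝ) * (ζ * N) / K.card) / (2 * κ) ≤ (η * N + 2 * ζ / θ * N) / (2 * κ) :=
    div_le_div_of_nonneg_right (by linarith) (by positivity)
  have h10 : κ / 2 * ((X:ℝ) - Y) ≤ κ / 2 * N := mul_le_mul_of_nonneg_left (by linarith) (by positivity)
  have h11 : 3 * (2 * ((η * N + 2 * ζ / θ * N) / (2 * κ) + κ / 2 * N)) =
      (3 * η / κ + 6 * ζ / (θ * κ) + 3 * κ) * N := by
    field_simp; ring
  nlinarith

/-- The number of the bad lengths for one interval and one choice of the signs. -/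
lemma bad_le (hl : ∀ n, l n = 1 ∨ l n = -1) {N : ℕ} (hN : 1 ≤ N) {η ζ θ κ ε : ℝ} (hη : 0 ≤ η) (hζ : 0 ≤ ζ)
    (hθ : 0 < θ) (hκ : 0 < κ)
    (hε : 4 * η + 16 * ζ / θ ^ 2 + 3 * η / κ + 6 * ζ / (θ * κ) + 3 * κ ≤ ε) (hN4 : 4 ≤ ε * N)
    (hP : PlusT l N η (ζ * N)) (hM : MinusT l N η (ζ * N))
    {σ τ : ℝ} (hσ : σ = 1 ∨ σ = -1) (hτ : τ = 1 ∨ τ = -1) {Y X : ℕ} (hYX : Y ≤ X) (hX : X ≤ N) :
    num (Icc 1 N) (fun k => ((X:ℝ) - Y) / 2 + ε * N < σ * (SS l k Y X + τ * SS l (k + 1) Y X)) ≤ θ * N := by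
  classical
  by_contra hcon
  push Not at hcon
  set K : Finset ℕ := (Icc 1 N).filter (fun k => ((X:ℝ) - Y) / 2 + ε * N < σ * (SS l k Y X + τ * SS l (k + 1) Y X))
    with hK
  have hKc : θ * N < K.card := by
    unfold num at hcon
    convert hcon using 2
  have hN0 : (0:ℝ) < N := by exact_mod_cast hN
  have hc : (0:ℝ) < K.card := lt_trans (by positivity) hKc
  have h1 := FD_le hl hN hη hζ hθ hκ hP hM (filter_subset _ _ : K ⊆ Icc 1 N) hKc.le hτ hYX hX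
  have h2 := FD_eq hl K τ Y X
  have h4 : σ * ∑ n ∈ Ioc Y X, F l n * D l K τ n ≤ |∑ n ∈ Ioc Y X, F l n * D l K τ n| := by
    have h5 := le_abs_self (σ * ∑ n ∈ Ioc Y X, F l n * D l K τ n)
    rw [abs_mul] at h5
    have h6 : |σ| = 1 := by rcases hσ with rfl | rfl <;> norm_num
    rw [h6, one_mul] at h5
    exact h5
  have h7 : (4 * η + 16 * ζ / θ ^ 2 + 3 * η / κ + 6 * ζ / (θ * κ) + 3 * κ) * N ≤ ε * N :=
    mul_le_mul_of_nonneg_right hε hN0.le
  -- strictness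
  have h8 : (((X:ℝ) - Y) / 2 + ε * N) < σ * ∑ n ∈ Ioc Y X, F l n * D l K τ n := by
    rw [h2, mul_div_assoc', lt_div_iff₀ hc, mul_sum]
    calc (((X:ℝ) - Y) / 2 + ε * N) * K.card = ∑ k ∈ K, (((X:ℝ) - Y) / 2 + ε * N) := by
          rw [sum_const, nsmul_eq_mul, mul_comm]
      _ < _ := sum_lt_sum_of_nonempty (card_pos.1 (by exact_mod_cast hc)) fun k hk => (mem_filter.1 hk).2
  linarith

/-- **Main theorem**: the sum of the absolute values of two neighbouring sums is at most half of the length of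
the interval, with few exceptional lengths. -/
theorem core {ε : ℝ} (hε : 0 < ε) : ∃ η : ℝ, 0 < η ∧ ∃ c : ℝ, 0 < c ∧ ∃ M : ℝ, 0 < M ∧ ∃ N₁ : ℕ, ∀ l : ℕ → ℝ,
    (∀ n, l n = 1 ∨ l n = -1) → ∀ N : ℕ, N₁ ≤ N → ∀ θ ζ : ℝ, 0 < θ → θ ≤ 1 → 0 ≤ ζ → ζ ≤ c * θ ^ 2 →
    PlusT l N η (ζ * N) → MinusT l N η (ζ * N) →
    num (Icc 1 N) (fun k => ¬ ∀ Y X : ℕ, Y ≤ X → X ≤ N →
      |SS l k Y X| + |SS l (k + 1) Y X| ≤ ((X:ℝ) - Y) / 2 + ε * N) ≤ M * (θ * N) := by
  set δ : ℝ := ε / 16 with hδ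
  have hδ0 : 0 < δ := by positivity
  set J : ℕ := ⌊1 / δ⌋₊ with hJ
  set κ : ℝ := ε / 24 with hκ
  have hκ0 : 0 < κ := by positivity
  set η : ℝ := min (ε / 256) (ε * κ / 192) with hη
  have hη0 : 0 < η := by positivity
  have hη1 : 4 * η ≤ ε / 64 := by
    have := min_le_left (ε / 256) (ε * κ / 192)
    rw [← hη] at this
    linarith
  have hη2 : 3 * η / κ ≤ ε / 64 := by
    rw [div_le_iff₀ (by positivity)]
    have := min_le_right (ε / 256) (ε * κ / 192)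
    rw [← hη] at this
    linarith
  set c : ℝ := min (ε / 1024) (ε * κ / 384) with hc
  have hc0 : 0 < c := by positivity
  refine ⟨η, hη0, c, hc0, 4 * ((J:ℝ) + 1) ^ 2, by positivity, max 1 ⌈16 / ε⌉₊, ?_⟩
  intro l hl N hN θ ζ hθ0 hθ1 hζ0 hζ hP hM
  have hc1 : 16 * ζ / θ ^ 2 ≤ ε / 64 := by
    rw [div_le_iff₀ (by positivity)]
    have h1 := min_le_left (ε / 1024) (ε * κ / 384)
    rw [← hc] at h1
    have h2 : c * θ ^ 2 ≤ ε / 1024 * θ ^ 2 := mul_le_mul_of_nonneg_right h1 (by positivity)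
    linarith
  have hc2 : 6 * ζ / (θ * κ) ≤ ε / 64 := by
    rw [div_le_iff₀ (by positivity)]
    have h1 := min_le_right (ε / 1024) (ε * κ / 384)
    rw [← hc] at h1
    have h2 : c * θ ^ 2 ≤ ε * κ / 384 * θ := by
      calc c * θ ^ 2 ≤ ε * κ / 384 * θ ^ 2 := mul_le_mul_of_nonneg_right h1 (by positivity)
        _ ≤ ε * κ / 384 * θ := by
          apply mul_le_mul_of_nonneg_left _ (by positivity)
          nlinarith
    nlinarith
  have hη3 : 4 * η + 16 * ζ / θ ^ 2 + 3 * η / κ + 6 * ζ / (θ * κ) + 3 * κ ≤ ε / 4 := by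
    have : 3 * κ = ε / 8 := by rw [hκ]; ring
    linarith
  have hN1 : 1 ≤ N := (le_max_left _ _).trans hN
  have hN0 : (0:ℝ) < N := by exact_mod_cast hN1
  have hN2 : 16 / ε ≤ N := (Nat.le_ceil _).trans (by exact_mod_cast (le_max_right _ _).trans hN)
  have hN3 : 16 ≤ ε * N := by rw [div_le_iff₀ hε] at hN2; linarith
  set q : ℕ := ⌊δ * N⌋₊ + 1 with hq
  have hq1 : δ * N < q := by rw [hq]; push_cast; exact Nat.lt_floor_add_one _
  have hq2 : (q:ℝ) ≤ 2 * (δ * N) := by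
    rw [hq]; push_cast
    have := Nat.floor_le (by positivity : 0 ≤ δ * N)
    have : 1 ≤ δ * N := by rw [hδ]; linarith
    linarith
  have hq0 : 0 < q := by omega
  set T : Finset ((ℕ × ℕ) × (ℝ × ℝ)) := ((range (J + 1)) ×ˢ (range (J + 1))) ×ˢ (({1, -1} : Finset ℝ) ×ˢ ({1, -1} : Finset ℝ))
    with hT
  have hTc : (T.card : ℝ) ≤ 4 * ((J:ℝ) + 1) ^ 2 := by
    rw [hT, card_product, card_product, card_product, card_range]
    have h1 : ({1, -1} : Finset ℝ).card ≤ 2 := card_le_two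
    have h2 : (J + 1) * (J + 1) * (({1, -1} : Finset ℝ).card * ({1, -1} : Finset ℝ).card) ≤ (J + 1) * (J + 1) * (2 * 2) :=
      Nat.mul_le_mul_left _ (Nat.mul_le_mul h1 h1)
    have h3 : (((J + 1) * (J + 1) * (({1, -1} : Finset ℝ).card * ({1, -1} : Finset ℝ).card) : ℕ) : ℝ) ≤
        (((J + 1) * (J + 1) * (2 * 2) : ℕ) : ℝ) := by exact_mod_cast h2
    refine h3.trans (le_of_eq ?_)
    push_cast; ring
  set E : ((ℕ × ℕ) × (ℝ × ℝ)) → ℕ → Prop := fun t k => t.1.1 ≤ t.1.2 ∧ t.1.2 * q ≤ N ∧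
    (((t.1.2 * q : ℕ) : ℝ) - ((t.1.1 * q : ℕ) : ℝ)) / 2 + ε / 4 * N <
      t.2.1 * (SS l k (t.1.1 * q) (t.1.2 * q) + t.2.2 * SS l (k + 1) (t.1.1 * q) (t.1.2 * q)) with hE
  have hbad : ∀ t ∈ T, num (Icc 1 N) (E t) ≤ θ * N := by
    intro t ht
    rw [hT, mem_product, mem_product] at ht
    have hs : t.2.1 = 1 ∨ t.2.1 = -1 := by
      have := (mem_product.1 ht.2).1
      simpa using this
    have hs2 : t.2.2 = 1 ∨ t.2.2 = -1 := by
      have := (mem_product.1 ht.2).2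
      simpa using this
    by_cases h1 : t.1.1 ≤ t.1.2 ∧ t.1.2 * q ≤ N
    · have h2 := bad_le hl hN1 hη0.le hζ0 hθ0 hκ0 hη3 (by linarith) hP hM hs hs2
        (Nat.mul_le_mul_right q h1.1) h1.2
      refine (num_mono ?_).trans h2
      intro k _ hk
      exact hk.2.2
    · have h2 : num (Icc 1 N) (E t) ≤ num (Icc 1 N) (fun _ => False) := by
        apply num_mono
        intro k _ hk
        exact h1 ⟨hk.1, hk.2.1⟩
      have h3 : num (Icc 1 N) (fun _ => False) = 0 := by simp [num]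
      rw [h3] at h2
      exact h2.trans (by positivity)
  have hall := (num_exists T (Icc 1 N) E).trans (sum_le_sum hbad)
  rw [sum_const, nsmul_eq_mul] at hall
  have hall2 : (T.card : ℝ) * (θ * N) ≤ 4 * ((J:ℝ) + 1) ^ 2 * (θ * N) :=
    mul_le_mul_of_nonneg_right hTc (by positivity)
  refine (num_mono ?_).trans (hall.trans hall2)
  intro k _ hk
  by_contra hno
  apply hk
  intro Y X hYX hX
  push Not at hno
  set i := Y / q
  set i' := X / q
  have hi : i * q ≤ Y := Nat.div_mul_le_self _ _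
  have hi' : i' * q ≤ X := Nat.div_mul_le_self _ _
  have hii : i ≤ i' := Nat.div_le_div_right hYX
  have hiY : Y < i * q + q := by
    have := Nat.lt_div_mul_add hq0 (a := Y)
    exact this
  have hiX : X < i' * q + q := by
    have := Nat.lt_div_mul_add hq0 (a := X)
    exact this
  have hJ' : i' ≤ J := by
    rw [hJ]
    apply Nat.le_floor
    rw [le_div_iff₀ hδ0]
    have h1 : ((i' * q : ℕ) : ℝ) ≤ N := by exact_mod_cast hi'.trans hX
    push_cast at h1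
    have h2 : (i':ℝ) * (δ * N) ≤ i' * q := mul_le_mul_of_nonneg_left hq1.le (by positivity)
    have h3 : ((i':ℝ) * δ) * N ≤ 1 * N := by linarith
    exact le_of_mul_le_mul_right h3 hN0
  have hgrid : |SS l k (i * q) (i' * q)| + |SS l (k + 1) (i * q) (i' * q)| ≤
      (((i' * q : ℕ) : ℝ) - ((i * q : ℕ) : ℝ)) / 2 + ε / 4 * N := by
    apply abs_add_abs_le_of
    intro σ τ hσ hτ
    have ht : ((i, i'), (σ, τ)) ∈ T := by
      rw [hT]
      simp only [mem_product, mem_range, mem_insert, mem_singleton]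
      exact ⟨⟨by omega, by omega⟩, hσ, hτ⟩
    have h1 := hno _ ht
    simp only [hE] at h1
    by_contra hcon
    push Not at hcon
    exact h1 ⟨hii, hi'.trans hX, hcon⟩
  have h1 := SS_split (k := k) hl hi (Nat.mul_le_mul_right q hii) hYX hi'
  have h2 := SS_split (k := k + 1) hl hi (Nat.mul_le_mul_right q hii) hYX hi'
  have h3 : (Y:ℝ) - ((i * q : ℕ) : ℝ) ≤ q := by
    have : (Y:ℝ) < ((i * q + q : ℕ) : ℝ) := by exact_mod_cast hiY
    push_cast at this ⊢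
    linarith
  have h4 : (X:ℝ) - ((i' * q : ℕ) : ℝ) ≤ q := by
    have : (X:ℝ) < ((i' * q + q : ℕ) : ℝ) := by exact_mod_cast hiX
    push_cast at this ⊢
    linarith
  have h5 : ((i' * q : ℕ) : ℝ) ≤ X := by exact_mod_cast hi'
  have h6 : 9 / 2 * (q:ℝ) ≤ 9 / 16 * ε * N := by
    have : 2 * (δ * N) = ε / 8 * N := by rw [hδ]; ring
    nlinarith
  nlinarith

end Pool.Agent.TH823.PS.Len
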