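import Pool.Agent.TH823.PS.Len

set_option autoImplicit false

/-!
# Products of consecutive values of the Liouville function: few exceptional lengths, at most scales
-/

namespace Pool.Agent.TH823.PS.Len

open Finset
open Pool.Agent.TH893.CL
open Pool.Agent.TH823.PS (GoodF PolyG Most most_good most_poly most_mono good_anti energy_one nice_liR)
open Pool.Agent.H373R2.T7 (exI energy liR)

/-- The Liouville function along a progression. -/
noncomputable def lr (a b n : ℕ) : ℝ := (-1 : ℝ) ^ ArithmeticFunction.cardFactors (a * n + b)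

lemma lr_pm (a b n : ℕ) : lr a b n = 1 ∨ lr a b n = -1 := neg_one_pow_eq_or ℝ _

lemma exI_liR {m : ℤ} {k : ℕ} (hk : 1 ≤ k) (h : m = k) :
    exI liR m = (((-1 : ℝ) ^ ArithmeticFunction.cardFactors k : ℝ) : ℂ) := by
  subst h
  unfold exI liR
  rw [if_pos (by exact_mod_cast hk)]
  simp

lemma sum_Ioc_sub {E : Type*} [AddCommGroup E] (f : ℕ → E) {Y X : ℕ} (h : Y ≤ X) :
    ∑ n ∈ Ioc Y X, f n = ∑ n ∈ Icc 1 X, f n - ∑ n ∈ Icc 1 Y, f n := by
  have h1 : ∀ Z : ℕ, Icc 1 Z = Ioc 0 Z := by intro Z; ext n; simp only [mem_Icc, mem_Ioc]; omega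
  rw [h1, h1, ← sum_Ioc_consecutive f (Nat.zero_le Y) h]
  abel

/-- the shift `s` is good for the weight `g` -/
def Ok (a B N : ℕ) (ε : ℝ) (g : ℕ → ℝ) (s : ℤ) : Prop :=
  ∀ X : ℕ, a * X ≤ B * N → ‖∑ n ∈ Icc 1 X, ((g n : ℝ) : ℂ) * exI liR (a * n + s)‖ ≤ ε * N

lemma plus_of {a b B N k : ℕ} (ha : 1 ≤ a) (hk : 1 ≤ k) {ε : ℝ} {g : ℕ → ℝ}
    (h : Ok a B N ε g ((a : ℤ) * k + b)) {Y X : ℕ} (hYX : Y ≤ X) (hX : a * X ≤ B * N) :
    |∑ n ∈ Ioc Y X, g n * lr a b (n + k)| ≤ 2 * ε * N := by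
  have key : ∀ Z : ℕ, a * Z ≤ B * N → ‖∑ n ∈ Icc 1 Z, ((g n * lr a b (n + k) : ℝ) : ℂ)‖ ≤ ε * N := by
    intro Z hZ
    have h1 := h Z hZ
    rw [sum_congr rfl (fun n _ => by
      rw [exI_liR (k := a * (n + k) + b) (by nlinarith) (by push_cast; ring)])] at h1
    push_cast at h1 ⊢
    unfold lr
    push_cast
    exact h1
  have h2 := key X hX
  have h3 := key Y ((Nat.mul_le_mul_left a hYX).trans hX)
  have h4 := sum_Ioc_sub (fun n => ((g n * lr a b (n + k) : ℝ) : ℂ)) hYX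
  have h5 : ‖∑ n ∈ Ioc Y X, ((g n * lr a b (n + k) : ℝ) : ℂ)‖ ≤ 2 * ε * N := by
    rw [h4]
    refine (norm_sub_le _ _).trans ?_
    linarith
  rw [← Complex.ofReal_sum, Complex.norm_real, Real.norm_eq_abs] at h5
  exact h5

lemma minus_of {a b B N k : ℕ} (ha : 1 ≤ a) {ε : ℝ} {g : ℕ → ℝ}
    (h : Ok a B N ε g ((b : ℤ) - a * k)) {Y X : ℕ} (hYX : Y ≤ X) (hX : a * (X + k) ≤ B * N) :
    |∑ n ∈ Ioc Y X, lr a b n * g (n + k)| ≤ 2 * ε * N := by
  set f : ℕ → ℂ := fun m => ((g m : ℝ) : ℂ) * exI liR ((a : ℤ) * m + ((b : ℤ) - a * k)) with hf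
  have h2 : ‖∑ n ∈ Icc 1 (X + k), f n‖ ≤ ε * N := h (X + k) hX
  have h3 : ‖∑ n ∈ Icc 1 (Y + k), f n‖ ≤ ε * N :=
    h (Y + k) ((Nat.mul_le_mul_left a (by omega)).trans hX)
  have h4 := sum_Ioc_sub f (by omega : Y + k ≤ X + k)
  have h5 : ‖∑ n ∈ Ioc (Y + k) (X + k), f n‖ ≤ 2 * ε * N := by
    rw [h4]
    refine (norm_sub_le _ _).trans ?_
    linarith
  rw [← Finset.image_add_right_Ioc, sum_image (fun x _ y _ h => by simpa using h)] at h5
  have h6 : ∑ n ∈ Ioc Y X, f (n + k) = ((∑ n ∈ Ioc Y X, lr a b n * g (n + k) : ℝ) : ℂ) := by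
    push_cast
    apply sum_congr rfl
    intro n hn
    have hn1 := (mem_Ioc.1 hn).1
    simp only [hf]
    rw [exI_liR (k := a * n + b) (by nlinarith [Nat.zero_le Y]) (by push_cast; ring)]
    unfold lr
    push_cast
    ring
  rw [h6, Complex.norm_real, Real.norm_eq_abs] at h5
  exact h5

lemma num_eq (I : Finset ℕ) (E : ℕ → Prop) [DecidablePred E] : num I E = ((I.filter E).card : ℝ) := by
  unfold num
  congr!

/-- the exceptional members of a family, for one linear form and one real weight -/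
lemma num_ok {a B p N : ℕ} (ha : 1 ≤ a) {ε δ : ℝ} (h : GoodF liR B 1 p ε δ N)
    {x : ℕ} {s : ℕ → ℤ} (hs : ∀ m ∈ Icc 1 x, |s m| ≤ B * N)
    (hE : (energy p x s : ℝ) * N ≤ (N : ℝ) ^ δ * (x : ℝ) ^ (2 * p)) {g : ℕ → ℝ} (hg : ∀ n, |g n| ≤ 1) :
    num (Icc 1 x) (fun m => ¬ Ok a B N ε g (s m)) ≤ x * (N : ℝ) ^ (-δ) := by
  classical
  have h1 := h x s hs hE (fun _ => a) (fun _ n => ((g n : ℝ) : ℂ)) (fun _ => ha) (by
    intro _
    have h2 : ∀ n ∈ Icc 1 (B * N / a), ‖((g n : ℝ) : ℂ)‖ ^ 2 ≤ 1 := by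
      intro n _
      rw [Complex.norm_real, Real.norm_eq_abs]
      exact pow_le_one₀ (abs_nonneg _) (hg n)
    refine (sum_le_sum h2).trans ?_
    rw [sum_const, Nat.card_Icc, nsmul_eq_mul, mul_one, Nat.add_sub_cancel]
    exact_mod_cast Nat.div_le_self _ _)
  rw [num_eq]
  refine le_trans ?_ h1
  apply Nat.cast_le.2
  apply card_le_card
  intro m hm
  rw [mem_filter] at hm ⊢
  exact ⟨hm.1, fun hcon => hm.2 fun X hX => hcon 0 X hX⟩

lemma energy_affine {t : ℤ} (ht : t ≠ 0) (b : ℤ) (p x : ℕ) (s : ℕ → ℤ) :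
    energy p x (fun m => t * s m + b) = energy p x s := by
  unfold energy
  congr 1
  apply filter_congr
  intro q _
  rw [sum_add_distrib, sum_add_distrib, add_left_inj, ← mul_sum, ← mul_sum, mul_right_inj' ht]

lemma energy_id {N : ℕ} (hN : 1 ≤ N) {δ : ℝ} (hδ : 0 ≤ δ) {s : ℕ → ℤ} (hs : ∀ m n : ℕ, s m = s n → m = n) :
    (energy 1 N s : ℝ) * N ≤ (N : ℝ) ^ δ * (N : ℝ) ^ (2 * 1) := by
  have hN1 : (1 : ℝ) ≤ N := by exact_mod_cast hN
  have h4 : (energy 1 N s : ℝ) ≤ N := by exact_mod_cast energy_one hs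
  have h5 : 1 ≤ (N : ℝ) ^ δ := Real.one_le_rpow hN1 hδ
  calc (energy 1 N s : ℝ) * N ≤ N * N := mul_le_mul_of_nonneg_right h4 (by positivity)
    _ = 1 * (N : ℝ) ^ (2 * 1) := by ring
    _ ≤ (N : ℝ) ^ δ * (N : ℝ) ^ (2 * 1) := mul_le_mul_of_nonneg_right h5 (by positivity)

lemma plusT_of {a b N : ℕ} (ha : 1 ≤ a) (hN : 1 ≤ N) (hb : b ≤ N) {ε δ : ℝ} (hδ : 0 ≤ δ)
    (h : GoodF liR (3 * a + 1) 1 1 ε δ N) : PlusT (lr a b) N (2 * ε) ((N : ℝ) ^ (-δ) * N) := by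
  intro g hg
  have ha0 : (0 : ℤ) < a := by exact_mod_cast ha
  have h1 := num_ok ha h (x := N) (s := fun m => (a : ℤ) * m + b) (by
    intro m hm
    have hm2 : (m : ℤ) ≤ N := by exact_mod_cast (mem_Icc.1 hm).2
    have hb2 : (b : ℤ) ≤ N := by exact_mod_cast hb
    rw [abs_of_nonneg (by positivity)]
    push_cast
    nlinarith) (energy_id hN hδ (by
      intro m n hmn
      have h2 : (a : ℤ) * m = a * n := by linarith
      exact_mod_cast mul_left_cancel₀ ha0.ne' h2)) hg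
  refine (num_mono ?_).trans (h1.trans (le_of_eq (mul_comm _ _)))
  intro k hk hno hS
  apply hno
  intro Y X hYX hX
  have hk1 := (mem_Icc.1 hk).1
  exact plus_of ha hk1 hS hYX (by nlinarith)

lemma minusT_of {a b N : ℕ} (ha : 1 ≤ a) (hN : 1 ≤ N) (hb : b ≤ N) {ε δ : ℝ} (hδ : 0 ≤ δ)
    (h : GoodF liR (3 * a + 1) 1 1 ε δ N) : MinusT (lr a b) N (2 * ε) ((N : ℝ) ^ (-δ) * N) := by
  intro g hg
  have ha0 : (0 : ℤ) < a := by exact_mod_cast ha
  have h1 := num_ok ha h (x := N) (s := fun m => (b : ℤ) - a * m) (by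
    intro m hm
    have hm2 : (m : ℤ) ≤ N := by exact_mod_cast (mem_Icc.1 hm).2
    have hm1 : (0 : ℤ) ≤ m := by positivity
    have hb2 : (b : ℤ) ≤ N := by exact_mod_cast hb
    have hb1 : (0 : ℤ) ≤ b := by positivity
    rw [abs_le]
    push_cast
    constructor <;> nlinarith) (energy_id hN hδ (by
      intro m n hmn
      have h2 : (a : ℤ) * m = a * n := by linarith
      exact_mod_cast mul_left_cancel₀ ha0.ne' h2)) hg
  refine (num_mono ?_).trans (h1.trans (le_of_eq (mul_comm _ _)))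
  intro k hk hno hS
  apply hno
  intro Y X hYX hX
  have hk2 := (mem_Icc.1 hk).2
  exact minus_of ha hS hYX (by
    have : X + k ≤ 3 * N := by omega
    nlinarith)

/-- powers of `N` beat constants -/
lemma ev_rpow {δ : ℝ} (hδ : 0 < δ) (M : ℝ) : ∃ N₁ : ℕ, ∀ N : ℕ, N₁ ≤ N → M ≤ (N : ℝ) ^ δ := by
  have h1 : Filter.Tendsto (fun N : ℕ => (N : ℝ) ^ δ) Filter.atTop Filter.atTop :=
    (tendsto_rpow_atTop hδ).comp tendsto_natCast_atTop_atTop
  obtain ⟨N₁, h2⟩ := Filter.eventually_atTop.1 (h1.eventually_ge_atTop M)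
  exact ⟨N₁, h2⟩

/-- the pairs of neighbouring lengths -/
theorem pairs {a : ℕ} (ha : 1 ≤ a) {ε : ℝ} (hε : 0 < ε) : ∃ δ : ℝ, 0 < δ ∧ Most ε (fun N => ∀ b : ℕ, b ≤ N →
    num (Icc 1 N) (fun k => ¬ ∀ Y X : ℕ, Y ≤ X → X ≤ N →
      |SS (lr a b) k Y X| + |SS (lr a b) (k + 1) Y X| ≤ ((X:ℝ) - Y) / 2 + ε * N) ≤ (N : ℝ) ^ (1 - δ)) := by
  obtain ⟨η, hη, c, hc, M, hM, N₁, hcore⟩ := core hε
  obtain ⟨δ0, hδ0, hmost⟩ := most_good nice_liR (3 * a + 1) 1 1 le_rfl (ε := min (ε / 2) (η / 2)) (by positivity)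
  obtain ⟨N₂, hN₂⟩ := ev_rpow (δ := δ0 / 2) (by positivity) (1 / c)
  obtain ⟨N₃, hN₃⟩ := ev_rpow (δ := δ0 / 8) (by positivity) M
  have hmost' : Most (ε / 2) (GoodF liR (3 * a + 1) 1 1 (min (ε / 2) (η / 2)) δ0) := by
    intro R₀
    obtain ⟨R, hR, h⟩ := hmost (max R₀ 1)
    refine ⟨R, (le_max_left _ _).trans hR, h.trans ?_⟩
    apply mul_le_mul_of_nonneg_right (min_le_left _ _)
    exact Real.log_nonneg (by exact_mod_cast (le_max_right _ _).trans hR)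
  refine ⟨δ0 / 8, by positivity, most_mono hε hmost' (N₁ := max 1 (max N₁ (max N₂ N₃))) fun N hN hG b hb => ?_⟩
  have hN1 : 1 ≤ N := (le_max_left _ _).trans hN
  have hNa : N₁ ≤ N := (le_max_left _ _).trans ((le_max_right _ _).trans hN)
  have hNb : N₂ ≤ N := (le_max_left _ _).trans ((le_max_right _ _).trans ((le_max_right _ _).trans hN))
  have hNc : N₃ ≤ N := (le_max_right _ _).trans ((le_max_right _ _).trans ((le_max_right _ _).trans hN))
  have hN1r : (1 : ℝ) ≤ N := by exact_mod_cast hN1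
  have hN0 : (0 : ℝ) < N := by linarith
  have hG' : GoodF liR (3 * a + 1) 1 1 (η / 2) δ0 N := good_anti hN1 (min_le_right _ _) le_rfl hG
  have hP := plusT_of ha hN1 hb hδ0.le hG'
  have hMi := minusT_of ha hN1 hb hδ0.le hG'
  rw [mul_div_cancel₀ η (two_ne_zero)] at hP hMi
  have h1 := hcore (lr a b) (lr_pm a b) N hNa ((N : ℝ) ^ (-(δ0 / 4))) ((N : ℝ) ^ (-δ0)) (by positivity)
    (Real.rpow_le_one_of_one_le_of_nonpos hN1r (by linarith)) (by positivity) (by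
      have h2 := hN₂ N hNb
      rw [div_le_iff₀ hc] at h2
      have h3 : ((N : ℝ) ^ (-(δ0 / 4))) ^ 2 = (N : ℝ) ^ (-(δ0 / 2)) := by
        rw [← Real.rpow_natCast, ← Real.rpow_mul hN0.le]; congr 1; push_cast; ring
      have h4 : (N : ℝ) ^ (-δ0) = (N : ℝ) ^ (-(δ0 / 2)) * (N : ℝ) ^ (-(δ0 / 2)) := by
        rw [← Real.rpow_add hN0]; congr 1; ring
      have h5 : (N : ℝ) ^ (δ0 / 2) * (N : ℝ) ^ (-(δ0 / 2)) = 1 := by
        rw [← Real.rpow_add hN0, show δ0 / 2 + -(δ0 / 2) = 0 by ring, Real.rpow_zero]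
      rw [h3, h4]
      apply mul_le_mul_of_nonneg_right _ (by positivity)
      calc (N : ℝ) ^ (-(δ0 / 2)) = 1 * (N : ℝ) ^ (-(δ0 / 2)) := (one_mul _).symm
        _ ≤ ((N : ℝ) ^ (δ0 / 2) * c) * (N : ℝ) ^ (-(δ0 / 2)) := mul_le_mul_of_nonneg_right h2 (by positivity)
        _ = c * ((N : ℝ) ^ (δ0 / 2) * (N : ℝ) ^ (-(δ0 / 2))) := by ring
        _ = c := by rw [h5, mul_one]) hP hMi
  refine h1.trans ?_
  have h6 := hN₃ N hNc
  calc M * ((N : ℝ) ^ (-(δ0 / 4)) * N) ≤ (N : ℝ) ^ (δ0 / 8) * ((N : ℝ) ^ (-(δ0 / 4)) * N) :=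
        mul_le_mul_of_nonneg_right h6 (by positivity)
    _ = (N : ℝ) ^ (1 - δ0 / 8) := by
        nth_rewrite 3 [← Real.rpow_one (N : ℝ)]
        rw [← Real.rpow_add hN0, ← Real.rpow_add hN0]
        congr 1; ring

/-- half of the trivial bound for the twisted sums -/
def Half (a b N : ℕ) (ε : ℝ) (ξ : ℕ → ℂ) (k : ℕ) : Prop :=
  ∀ Y X : ℕ, Y ≤ X → X ≤ N → ‖∑ n ∈ Ioc Y X, ξ n * (Pk (lr a b) k n : ℂ)‖ ≤ ((X:ℝ) - Y) / 2 + ε * N

lemma half_core {a b B N : ℕ} (ha : 1 ≤ a) (haB : a ≤ B) {ε ε' : ℝ} (hN : 2 ≤ ε * N) (hε1 : 8 * ε' ≤ ε)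
    {x : ℕ} {s : ℕ → ℤ} {Bd : ℝ}
    (h : ∀ g : ℕ → ℝ, (∀ n, |g n| ≤ 1) → num (Icc 1 x) (fun m => ¬ Ok a B N ε' g ((a : ℤ) * s m + b)) ≤ Bd)
    {ξ : ℕ → ℂ} (hξ : ∀ n, ‖ξ n‖ ≤ 1) :
    num (Icc 1 x) (fun m => 0 < s m ∧ ¬ Half a b N ε ξ (s m).toNat) ≤ 4 * Bd := by
  have h1 := twist_num (l := lr a b) (lr_pm a b) (N := N) (η := 2 * ε') (I := Icc 1 x)
    (k := fun m => (s m).toNat) (G := fun m => 0 < s m) (B := Bd) (by
      intro g hg
      refine (num_mono ?_).trans (h g hg)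
      intro m _ hm hS
      apply hm.2
      intro Y X hYX hX
      have hk : (((s m).toNat : ℕ) : ℤ) = s m := Int.toNat_of_nonneg hm.1.le
      have hk1 : 1 ≤ (s m).toNat := by
        have := hm.1
        omega
      refine plus_of (B := B) ha hk1 (k := (s m).toNat) ?_ hYX (Nat.mul_le_mul haB hX)
      rw [hk]
      exact hS) hξ
  refine (num_mono ?_).trans h1
  intro m _ hm
  refine ⟨hm.1, fun hcon => hm.2 fun Y X hYX hX => ?_⟩
  refine (hcon Y X hYX hX).trans ?_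
  have hN0 : (0 : ℝ) ≤ N := Nat.cast_nonneg _
  nlinarith

/-- families of lengths with small energy -/
theorem families {a : ℕ} (ha : 1 ≤ a) {ε : ℝ} (hε : 0 < ε) (B p : ℕ) (hp : 1 ≤ p) :
    ∃ δ : ℝ, 0 < δ ∧ Most ε (fun N => ∀ b : ℕ, b ≤ B * N → ∀ (x : ℕ) (s : ℕ → ℤ), (∀ m ∈ Icc 1 x, |s m| ≤ B * N) →
      (energy p x s : ℝ) * N ≤ (N : ℝ) ^ δ * (x : ℝ) ^ (2 * p) → ∀ ξ : ℕ → ℂ, (∀ n, ‖ξ n‖ ≤ 1) →
      num (Icc 1 x) (fun m => 0 < s m ∧ ¬ Half a b N ε ξ (s m).toNat) ≤ x * (N : ℝ) ^ (-δ)) := by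
  obtain ⟨δ0, hδ0, hmost⟩ := most_good nice_liR (a * B + B + a) 1 p hp (ε := ε / 8) (by positivity)
  obtain ⟨N₂, hN₂⟩ := ev_rpow (δ := δ0 / 2) (by positivity) 4
  have hmost' : Most (ε / 2) (GoodF liR (a * B + B + a) 1 p (ε / 8) δ0) := by
    intro R₀
    obtain ⟨R, hR, h⟩ := hmost (max R₀ 1)
    refine ⟨R, (le_max_left _ _).trans hR, h.trans ?_⟩
    apply mul_le_mul_of_nonneg_right (by linarith)
    exact Real.log_nonneg (by exact_mod_cast (le_max_right _ _).trans hR)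
  refine ⟨δ0 / 2, by positivity, most_mono hε hmost' (N₁ := max 1 (max N₂ ⌈2 / ε⌉₊)) fun N hN hG b hb x s hs hE ξ hξ => ?_⟩
  have hN1 : 1 ≤ N := (le_max_left _ _).trans hN
  have hNb : N₂ ≤ N := (le_max_left _ _).trans ((le_max_right _ _).trans hN)
  have hNc : ⌈2 / ε⌉₊ ≤ N := (le_max_right _ _).trans ((le_max_right _ _).trans hN)
  have hN1r : (1 : ℝ) ≤ N := by exact_mod_cast hN1
  have hN0 : (0 : ℝ) < N := by linarith
  have hN2 : 2 ≤ ε * N := by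
    have h1 : 2 / ε ≤ (N : ℝ) := (Nat.le_ceil _).trans (by exact_mod_cast hNc)
    rw [div_le_iff₀ hε] at h1
    linarith
  have ha' : (a : ℤ) ≠ 0 := by exact_mod_cast (by omega : a ≠ 0)
  have h1 := half_core (b := b) (B := a * B + B + a) (N := N) ha (by omega) hN2 (by linarith : 8 * (ε / 8) ≤ ε)
    (x := x) (s := s) (Bd := x * (N : ℝ) ^ (-δ0)) (by
      intro g hg
      refine num_ok ha hG (s := fun m => (a : ℤ) * s m + b) ?_ ?_ hg
      · intro m hm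
        have h2 := hs m hm
        have hb2 : (b : ℤ) ≤ B * N := by exact_mod_cast hb
        have hb1 : (0 : ℤ) ≤ b := by positivity
        have ha0 : (0 : ℤ) ≤ a := by positivity
        have h3 : |(a : ℤ) * s m| ≤ a * (B * N) := by
          rw [abs_mul, Nat.abs_cast]
          exact mul_le_mul_of_nonneg_left h2 ha0
        refine (abs_add_le _ _).trans ?_
        rw [Nat.abs_cast]
        push_cast
        have h4 : (0 : ℤ) ≤ a * N := by positivity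
        nlinarith
      · rw [energy_affine ha']
        refine hE.trans ?_
        apply mul_le_mul_of_nonneg_right _ (by positivity)
        exact Real.rpow_le_rpow_of_exponent_le hN1r (by linarith)) hξ
  refine h1.trans ?_
  have h6 := hN₂ N hNb
  calc 4 * ((x : ℝ) * (N : ℝ) ^ (-δ0)) ≤ (N : ℝ) ^ (δ0 / 2) * ((x : ℝ) * (N : ℝ) ^ (-δ0)) :=
        mul_le_mul_of_nonneg_right h6 (by positivity)
    _ = x * ((N : ℝ) ^ (δ0 / 2) * (N : ℝ) ^ (-δ0)) := by ring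
    _ = x * (N : ℝ) ^ (-(δ0 / 2)) := by
        rw [← Real.rpow_add hN0]; congr 2; ring

/-- polynomial lengths -/
theorem polys {a : ℕ} (ha : 1 ≤ a) {ε : ℝ} (hε : 0 < ε) (B : ℕ) (f : Polynomial ℤ) (hf : 1 ≤ f.natDegree) :
    ∃ δ : ℝ, 0 < δ ∧ Most ε (fun N => ∀ b : ℕ, b ≤ B * N → ∀ x : ℕ, x ^ f.natDegree ≤ B * N →
      (N : ℝ) ^ (1 - δ) ≤ (x : ℝ) ^ f.natDegree → ∀ ξ : ℕ → ℂ, (∀ n, ‖ξ n‖ ≤ 1) →
      num (Icc 1 x) (fun m => 0 < f.eval (m : ℤ) ∧ ¬ Half a b N ε ξ (f.eval (m : ℤ)).toNat) ≤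
        x * (N : ℝ) ^ (-δ)) := by
  classical
  have ha' : (a : ℤ) ≠ 0 := by exact_mod_cast (by omega : a ≠ 0)
  have hdeg : (Polynomial.C (a : ℤ) * f).natDegree = f.natDegree := Polynomial.natDegree_C_mul ha'
  obtain ⟨δ0, hδ0, hmost⟩ := most_poly nice_liR (B + a) 1 (Polynomial.C (a : ℤ) * f) (by rw [hdeg]; exact hf)
    (ε := ε / 8) (by positivity)
  obtain ⟨N₂, hN₂⟩ := ev_rpow (δ := δ0 / 2) (by positivity) 4
  have hmost' : Most (ε / 2) (PolyG liR (B + a) 1 (Polynomial.C (a : ℤ) * f) (ε / 8) δ0) := by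
    intro R₀
    obtain ⟨R, hR, h⟩ := hmost (max R₀ 1)
    refine ⟨R, (le_max_left _ _).trans hR, h.trans ?_⟩
    apply mul_le_mul_of_nonneg_right (by linarith)
    exact Real.log_nonneg (by exact_mod_cast (le_max_right _ _).trans hR)
  refine ⟨δ0 / 2, by positivity, most_mono hε hmost' (N₁ := max 1 (max N₂ ⌈2 / ε⌉₊)) fun N hN hG b hb x hx1 hx2 ξ hξ => ?_⟩
  have hN1 : 1 ≤ N := (le_max_left _ _).trans hN
  have hNb : N₂ ≤ N := (le_max_left _ _).trans ((le_max_right _ _).trans hN)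
  have hNc : ⌈2 / ε⌉₊ ≤ N := (le_max_right _ _).trans ((le_max_right _ _).trans hN)
  have hN1r : (1 : ℝ) ≤ N := by exact_mod_cast hN1
  have hN0 : (0 : ℝ) < N := by linarith
  have hN2 : 2 ≤ ε * N := by
    have h1 : 2 / ε ≤ (N : ℝ) := (Nat.le_ceil _).trans (by exact_mod_cast hNc)
    rw [div_le_iff₀ hε] at h1
    linarith
  have hBN : B * N ≤ (B + a) * N := Nat.mul_le_mul_right _ (by omega)
  have h1 := half_core (b := b) (B := B + a) (N := N) ha (by omega) hN2 (by linarith : 8 * (ε / 8) ≤ ε)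
    (x := x) (s := fun m => f.eval (m : ℤ)) (Bd := x * (N : ℝ) ^ (-δ0)) (by
      intro g hg
      have h2 := hG x (by rw [hdeg]; exact hx1.trans hBN) (by
        rw [hdeg]
        refine le_trans ?_ hx2
        exact Real.rpow_le_rpow_of_exponent_le hN1r (by linarith)) (b : ℤ) (by
          rw [Nat.abs_cast]
          exact_mod_cast hb.trans hBN) (fun _ => a) (fun _ n => ((g n : ℝ) : ℂ)) (fun _ => ha) (by
            intro _
            have h2 : ∀ n ∈ Icc 1 ((B + a) * N / a), ‖((g n : ℝ) : ℂ)‖ ^ 2 ≤ 1 := by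
              intro n _
              rw [Complex.norm_real, Real.norm_eq_abs]
              exact pow_le_one₀ (abs_nonneg _) (hg n)
            refine (sum_le_sum h2).trans ?_
            rw [sum_const, Nat.card_Icc, nsmul_eq_mul, mul_one, Nat.add_sub_cancel]
            exact_mod_cast Nat.div_le_self _ _)
      rw [num_eq]
      refine le_trans ?_ h2
      apply Nat.cast_le.2
      apply card_le_card
      intro m hm
      rw [mem_filter] at hm ⊢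
      refine ⟨hm.1, fun hcon => hm.2 fun X hX => ?_⟩
      have h3 := hcon 0 X hX
      have h4 : (b : ℤ) + (Polynomial.C (a : ℤ) * f).eval (m : ℤ) = (a : ℤ) * f.eval (m : ℤ) + b := by
        rw [Polynomial.eval_mul, Polynomial.eval_C]; ring
      rw [h4] at h3
      exact h3) hξ
  refine h1.trans ?_
  have h6 := hN₂ N hNb
  calc 4 * ((x : ℝ) * (N : ℝ) ^ (-δ0)) ≤ (N : ℝ) ^ (δ0 / 2) * ((x : ℝ) * (N : ℝ) ^ (-δ0)) :=
        mul_le_mul_of_nonneg_right h6 (by positivity)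
    _ = x * ((N : ℝ) ^ (δ0 / 2) * (N : ℝ) ^ (-δ0)) := by ring
    _ = x * (N : ℝ) ^ (-(δ0 / 2)) := by
        rw [← Real.rpow_add hN0]; congr 2; ring

end Pool.Agent.TH823.PS.Len
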